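import Mathlib

/-!
# Common transversals: the double coset formula and the permanent of a block diagonal matrix
(MP_e51b07_al)
-/

set_option autoImplicit false
set_option linter.unusedSectionVars false

namespace Pool.Agent.R82.TP

open scoped Classical
open Equiv Finset

/-! ### A sum over permutations -/

theorem perm_sum {α D : Type*} [Fintype α] [DecidableEq α] [Fintype D] [DecidableEq D]
    (f : α → D) (w : D → ℚ) :
    ∑ σ : Perm α, ∏ i, (if f (σ i) = f i then w (f i) else 0) =
      ∏ d, (((Fintype.card {a // f a = d}).factorial : ℚ) *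
        w d ^ (Fintype.card {a // f a = d})) := by
  have h1 : ∀ σ : Perm α, ∏ i, (if f (σ i) = f i then w (f i) else 0) =
      if f ∘ σ = f then ∏ i, w (f i) else 0 := by
    intro σ
    by_cases h : f ∘ σ = f
    · rw [if_pos h]
      exact prod_congr rfl fun i _ => if_pos (congrFun h i)
    · rw [if_neg h]
      obtain ⟨i, hi⟩ : ∃ i, f (σ i) ≠ f i := by
        by_contra hc
        push Not at hc
        exact h (funext hc)
      exact prod_eq_zero (mem_univ i) (if_neg hi)
  rw [sum_congr rfl fun σ _ => h1 σ, ← sum_filter, sum_const, nsmul_eq_mul]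
  have h2 : (#{σ : Perm α | f ∘ σ = f} : ℕ) = ∏ d, (Fintype.card {a // f a = d}).factorial := by
    rw [← DomMulAct.stabilizer_card f, Fintype.card_subtype]
  rw [h2, Nat.cast_prod, prod_mul_distrib]
  congr 1
  rw [← Finset.prod_fiberwise univ f]
  refine prod_congr rfl fun d _ => ?_
  rw [prod_congr rfl (g := fun _ => w d) (fun i hi => by rw [(mem_filter.1 hi).2]), prod_const]
  congr 1
  rw [Fintype.card_subtype]

/-! ### The block diagonal matrix -/

/-- the doubly stochastic block diagonal matrix with blocks of sizes `t i`, with all the entries of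
a block of size `t i` equal to `1 / t i` -/
noncomputable def T {s : ℕ} (t : Fin s → ℕ) :
    Matrix ((i : Fin s) × Fin (t i)) ((i : Fin s) × Fin (t i)) ℚ :=
  Matrix.blockDiagonal' fun i => Matrix.of fun _ _ => (1 : ℚ) / t i

theorem permanent_T {s : ℕ} (t : Fin s → ℕ) :
    (T t).permanent = ∏ i, ((t i).factorial : ℚ) / (t i : ℚ) ^ t i := by
  have h1 : (T t).permanent = ∑ σ : Perm ((i : Fin s) × Fin (t i)),
      ∏ x, (if (σ x).1 = x.1 then (1 : ℚ) / t x.1 else 0) := by
    unfold Matrix.permanent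
    refine sum_congr rfl fun σ _ => prod_congr rfl fun x _ => ?_
    unfold T
    rw [Matrix.blockDiagonal'_apply']
    by_cases h : (σ x).1 = x.1
    · rw [if_pos h, dif_pos h, Matrix.of_apply, h]
    · rw [if_neg h, dif_neg h]
  rw [h1, perm_sum (fun x : (i : Fin s) × Fin (t i) => x.1) (fun i => (1 : ℚ) / t i)]
  refine prod_congr rfl fun i _ => ?_
  have h2 : Fintype.card {a : (i : Fin s) × Fin (t i) // a.1 = i} = t i := by
    rw [Fintype.card_congr (Equiv.sigmaSubtype i), Fintype.card_fin]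
  rw [h2, div_pow, one_pow, mul_one_div]

/-! ### Common transversals -/

section grp

variable {G : Type*} [Group G] (H K : Subgroup G)

/-- the sets which are left transversals of `H` (they meet every left coset `g H` in exactly one
element) and right transversals of `K` (they meet every right coset `K g` in exactly one
element) -/
def DT : Set (Set G) := {S | (∀ g : G, ∃! x, x ∈ S ∧ ∃ h ∈ H, x = g * h) ∧
  ∀ g : G, ∃! x, x ∈ S ∧ ∃ k ∈ K, x = k * g}

/-- the common transversal probability -/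
noncomputable def P : ℚ := (Nat.card (DT H K) : ℚ) / (Nat.card H : ℚ) ^ H.index

/-- left cosets -/
abbrev X : Type _ := G ⧸ H
/-- right cosets -/
abbrev Y : Type _ := Quotient (QuotientGroup.rightRel K)

/-- the left coset of an element -/
def mX (g : G) : X H := QuotientGroup.mk g
/-- the right coset of an element -/
def mY (g : G) : Y K := Quotient.mk _ g

theorem mX_eq {a b : G} : mX H a = mX H b ↔ ∃ h ∈ H, b = a * h := by
  unfold mX
  rw [QuotientGroup.eq]
  constructor
  · intro h
    exact ⟨_, h, by group⟩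
  · rintro ⟨h, hh, rfl⟩
    simpa using hh

theorem mY_eq {a b : G} : mY K a = mY K b ↔ ∃ k ∈ K, b = k * a := by
  unfold mY
  rw [Quotient.eq, QuotientGroup.rightRel_apply]
  constructor
  · intro h
    exact ⟨_, h, by group⟩
  · rintro ⟨h, hh, rfl⟩
    simpa using hh

/-- sections whose values are representatives of the right cosets -/
abbrev Sec : Type _ := {s : X H → G // (∀ x, mX H (s x) = x) ∧
  Function.Bijective fun x => mY K (s x)}

theorem card_DT : Nat.card (DT H K) = Nat.card (Sec H K) := by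
  symm
  refine Nat.card_congr (Equiv.ofBijective (fun s : Sec H K => (⟨Set.range s.1, ?_, ?_⟩ : DT H K))
    ⟨?_, ?_⟩)
  · intro g
    refine ⟨s.1 (mX H g), ⟨⟨_, rfl⟩, ?_⟩, ?_⟩
    · exact (mX_eq H).1 (s.2.1 (mX H g)).symm
    · rintro _ ⟨⟨x, rfl⟩, h⟩
      have := (mX_eq H).2 h
      rw [s.2.1] at this
      rw [this]
  · intro g
    obtain ⟨x, hx⟩ := s.2.2.2 (mY K g)
    refine ⟨s.1 x, ⟨⟨_, rfl⟩, (mY_eq K).1 hx.symm⟩, ?_⟩
    rintro _ ⟨⟨x', rfl⟩, h⟩
    have h1 := (mY_eq K).2 h
    have h2 : x = x' := s.2.2.1 (hx.trans h1)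
    rw [h2]
  · intro s s' h
    have h1 : Set.range s.1 = Set.range s'.1 := congrArg Subtype.val h
    apply Subtype.ext
    funext x
    obtain ⟨x', hx'⟩ : s.1 x ∈ Set.range s'.1 := h1 ▸ ⟨x, rfl⟩
    have h2 : x' = x := by rw [← s'.2.1 x', hx', s.2.1 x]
    rw [← hx', h2]
  · rintro ⟨S, h1, h2⟩
    have hs : ∀ x : X H, ∃ a, a ∈ S ∧ mX H a = x := by
      intro x
      obtain ⟨g, rfl⟩ : ∃ g, mX H g = x := QuotientGroup.mk_surjective x
      obtain ⟨a, ⟨ha, ha'⟩, -⟩ := h1 g
      exact ⟨a, ha, ((mX_eq H).2 ha').symm⟩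
    choose s hs hs' using hs
    have huniq : ∀ a ∈ S, s (mX H a) = a := by
      intro a ha
      obtain ⟨b, -, hb⟩ := h1 a
      rw [hb (s (mX H a)) ⟨hs _, (mX_eq H).1 (hs' _).symm⟩, hb a ⟨ha, 1, H.one_mem, by simp⟩]
    refine ⟨⟨s, hs', ?_, ?_⟩, ?_⟩
    · intro x x' hxx
      obtain ⟨b, -, hb⟩ := h2 (s x)
      have e1 := hb (s x) ⟨hs x, 1, K.one_mem, by simp⟩
      have e2 := hb (s x') ⟨hs x', (mY_eq K).1 hxx⟩
      rw [← hs' x, ← hs' x', e1, e2]
    · intro y
      obtain ⟨g, rfl⟩ : ∃ g, mY K g = y := Quotient.exists_rep y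
      obtain ⟨a, ⟨ha, ha'⟩, -⟩ := h2 g
      refine ⟨mX H a, ?_⟩
      change mY K (s (mX H a)) = _
      rw [huniq a ha]
      exact ((mY_eq K).2 ha').symm
    · apply Subtype.ext
      apply Set.Subset.antisymm
      · rintro _ ⟨x, rfl⟩
        exact hs x
      · intro a ha
        exact ⟨mX H a, huniq a ha⟩

end grp

/-! ### The double coset formula -/

theorem card_fib {A B : Type*} [Finite A] [Finite B] (m : A → B) (c : ℕ)
    (hc : ∀ b, Nat.card {a // m a = b} = c) (p : B → Prop) :
    Nat.card {a // p (m a)} = Nat.card {b // p b} * c := by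
  have e := Equiv.sigmaSubtypeFiberEquivSubtype m (p := fun a => p (m a)) (q := p)
    (fun _ => Iff.rfl)
  have := Fintype.ofFinite {b // p b}
  rw [← Nat.card_congr e, Nat.card_sigma, Finset.sum_congr rfl (fun b _ => hc b.1), sum_const,
    smul_eq_mul, Finset.card_univ, Nat.card_eq_fintype_card]

section dc

variable {G : Type*} [Group G] [Finite G] (H K : Subgroup G)

/-- the double cosets, as the orbits of `K` on the left cosets of `H` -/
abbrev D : Type _ := MulAction.orbitRel.Quotient K (X H)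

/-- the double coset of a left coset -/
def dX (x : X H) : D H K := Quotient.mk _ x

theorem dX_eq {x y : X H} : dX H K x = dX H K y ↔ ∃ k ∈ K, x = k • y := by
  unfold dX
  rw [Quotient.eq, MulAction.orbitRel_apply]
  constructor
  · rintro ⟨k, hk⟩
    exact ⟨k.1, k.2, hk.symm⟩
  · rintro ⟨k, hk, h⟩
    exact ⟨⟨k, hk⟩, h.symm⟩

theorem smul_mX (k g : G) : k • mX H g = mX H (k * g) := rfl

/-- the double coset of a right coset -/
def dY : Y K → D H K := Quotient.lift (fun g => dX H K (mX H g)) (by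
  intro a b h
  have h1 : mY K a = mY K b := Quotient.sound h
  obtain ⟨k, hk, rfl⟩ := (mY_eq K).1 h1
  refine (dX_eq H K).2 ⟨k⁻¹, K.inv_mem hk, ?_⟩
  rw [smul_mX, inv_mul_cancel_left])

theorem dY_mY (g : G) : dY H K (mY K g) = dX H K (mX H g) := rfl

/-- the number of the elements of the intersection of a left and a right coset -/
noncomputable def Nm (x : X H) (y : Y K) : ℕ := Nat.card {g : G // mX H g = x ∧ mY K g = y}

theorem Nm_zero {x : X H} {y : Y K} (h : dX H K x ≠ dY H K y) : Nm H K x y = 0 := by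
  unfold Nm
  have : IsEmpty {g : G // mX H g = x ∧ mY K g = y} := by
    refine ⟨?_⟩
    rintro ⟨g, rfl, rfl⟩
    exact h (dY_mY H K g).symm
  exact Nat.card_of_isEmpty

theorem Nm_eq {x : X H} {y : Y K} (h : dX H K x = dY H K y) :
    Nm H K x y = Nat.card (MulAction.stabilizer K x) := by
  obtain ⟨a, rfl⟩ : ∃ g, mX H g = x := QuotientGroup.mk_surjective x
  obtain ⟨b, rfl⟩ : ∃ g, mY K g = y := Quotient.exists_rep y
  rw [dY_mY] at h
  obtain ⟨k, hk, hkb⟩ := (dX_eq H K).1 h
  rw [smul_mX] at hkb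
  have hY : mY K (k * b) = mY K b := ((mY_eq K).2 ⟨k, hk, rfl⟩).symm
  rw [hkb, ← hY]
  set g0 := k * b
  symm
  refine Nat.card_congr (Equiv.ofBijective
    (fun c : MulAction.stabilizer K (mX H g0) =>
      (⟨(c.1 : G) * g0, ?_, ?_⟩ : {g : G // mX H g = mX H g0 ∧ mY K g = mY K g0})) ⟨?_, ?_⟩)
  · exact c.2
  · exact ((mY_eq K).2 ⟨c.1, c.1.2, rfl⟩).symm
  · intro c c' hcc
    have h1 : (c.1 : G) * g0 = (c'.1 : G) * g0 := congrArg Subtype.val hcc
    exact Subtype.ext (Subtype.ext (mul_right_cancel h1))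
  · rintro ⟨g, h1, h2⟩
    obtain ⟨c, hc, rfl⟩ := (mY_eq K).1 h2.symm
    exact ⟨⟨⟨c, hc⟩, h1⟩, rfl⟩

theorem card_sec [Fintype (X H)] [Fintype (X H ≃ Y K)] :
    Nat.card (Sec H K) = ∑ φ : X H ≃ Y K, ∏ x, Nm H K x (φ x) := by
  let Φ : Sec H K → (X H ≃ Y K) := fun s => Equiv.ofBijective _ s.2.2
  rw [← Nat.card_congr (Equiv.sigmaFiberEquiv Φ), Nat.card_sigma]
  refine sum_congr rfl fun φ _ => ?_
  unfold Nm
  rw [← Nat.card_pi]
  refine Nat.card_congr
    { toFun := fun s x => ⟨s.1.1 x, s.1.2.1 x, DFunLike.congr_fun s.2 x⟩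
      invFun := fun c => ⟨⟨fun x => (c x).1, fun x => (c x).2.1, ?_⟩, ?_⟩
      left_inv := fun s => rfl
      right_inv := fun c => rfl }
  · have : (fun x => mY K (c x).1) = φ := funext fun x => (c x).2.2
    rw [this]
    exact φ.bijective
  · exact Equiv.ext fun x => (c x).2.2

theorem card_fX (x : X H) : Nat.card {g // mX H g = x} = Nat.card H := by
  obtain ⟨a, rfl⟩ : ∃ g, mX H g = x := QuotientGroup.mk_surjective x
  symm
  refine Nat.card_congr (Equiv.ofBijective
    (fun h : H => (⟨a * h, ((mX_eq H).2 ⟨h.1, h.2, rfl⟩).symm⟩ : {g // mX H g = mX H a}))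
    ⟨?_, ?_⟩)
  · intro h h' hh
    have := congrArg Subtype.val hh
    exact Subtype.ext (mul_left_cancel this)
  · rintro ⟨g, hg⟩
    obtain ⟨h, hh, rfl⟩ := (mX_eq H).1 hg.symm
    exact ⟨⟨h, hh⟩, rfl⟩

theorem card_fY (y : Y K) : Nat.card {g // mY K g = y} = Nat.card K := by
  obtain ⟨a, rfl⟩ : ∃ g, mY K g = y := Quotient.exists_rep y
  symm
  refine Nat.card_congr (Equiv.ofBijective
    (fun h : K => (⟨h * a, ((mY_eq K).2 ⟨h.1, h.2, rfl⟩).symm⟩ : {g // mY K g = mY K a}))
    ⟨?_, ?_⟩)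
  · intro h h' hh
    have := congrArg Subtype.val hh
    exact Subtype.ext (mul_right_cancel this)
  · rintro ⟨g, hg⟩
    obtain ⟨h, hh, rfl⟩ := (mY_eq K).1 hg.symm
    exact ⟨⟨h, hh⟩, rfl⟩

instance : Finite (Y K) := Quotient.finite _

/-- the number of left cosets in a double coset -/
noncomputable def cc (d : D H K) : ℕ := Nat.card {x // dX H K x = d}

theorem fib_eq (hHK : Nat.card H = Nat.card K) (d : D H K) :
    Nat.card {x // dX H K x = d} = Nat.card {y // dY H K y = d} := by
  have h1 := card_fib (mX H) _ (card_fX H) (fun x => dX H K x = d)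
  have h2 := card_fib (mY K) _ (card_fY K) (fun y => dY H K y = d)
  have h3 : Nat.card {a // dX H K (mX H a) = d} = Nat.card {a // dY H K (mY K a) = d} := rfl
  rw [h1, h2, hHK] at h3
  exact Nat.eq_of_mul_eq_mul_right Nat.card_pos h3

theorem exists_e (hHK : Nat.card H = Nat.card K) :
    ∃ e : X H ≃ Y K, ∀ x, dY H K (e x) = dX H K x := by
  have h : ∀ d : D H K, Nonempty ({x // dX H K x = d} ≃ {y // dY H K y = d}) := fun d =>
    Finite.card_eq.1 (fib_eq H K hHK d)
  let E : ∀ d : D H K, {x // dX H K x = d} ≃ {y // dY H K y = d} := fun d => (h d).some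
  refine ⟨((Equiv.sigmaFiberEquiv (dX H K)).symm.trans (Equiv.sigmaCongrRight E)).trans
    (Equiv.sigmaFiberEquiv (dY H K)), fun x => ?_⟩
  exact (E (dX H K x) ⟨x, rfl⟩).2

theorem card_orb (x : X H) : Nat.card {x' // dX H K x' = dX H K x} *
    Nat.card (MulAction.stabilizer K x) = Nat.card K := by
  have h1 : Nat.card {x' // dX H K x' = dX H K x} = Nat.card (MulAction.orbit K x) := by
    refine Nat.card_congr (Equiv.subtypeEquivRight fun x' => ?_)
    rw [dX_eq]
    constructor
    · rintro ⟨k, hk, rfl⟩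
      exact ⟨⟨k, hk⟩, rfl⟩
    · rintro ⟨k, rfl⟩
      exact ⟨k.1, k.2, rfl⟩
  rw [h1, ← Nat.card_prod]
  exact Nat.card_congr (MulAction.orbitProdStabilizerEquivGroup K x)

/-- **The double coset formula.** -/
theorem P_eq [Fintype (D H K)] (hHK : Nat.card H = Nat.card K) :
    P H K = ∏ d : D H K, ((cc H K d).factorial : ℚ) / (cc H K d : ℚ) ^ cc H K d := by
  have := Fintype.ofFinite (X H)
  have := Fintype.ofFinite (Y K)
  obtain ⟨e, he⟩ := exists_e H K hHK
  have hpos : ∀ x : X H, 0 < cc H K (dX H K x) := by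
    intro x
    have : Nonempty {x' // dX H K x' = dX H K x} := ⟨⟨x, rfl⟩⟩
    exact Nat.card_pos
  have hposd : ∀ d : D H K, 0 < cc H K d := by
    intro d
    obtain ⟨x, rfl⟩ : ∃ x, dX H K x = d := Quotient.exists_rep d
    exact hpos x
  have h1 : (Nat.card (DT H K) : ℚ) = ∑ π : Perm (X H), ∏ x,
      (if dX H K (π x) = dX H K x then (Nat.card K : ℚ) / cc H K (dX H K x) else 0) := by
    rw [card_DT, card_sec]
    push_cast
    rw [← (Equiv.equivCongr (Equiv.refl (X H)) e).sum_comp]
    refine sum_congr rfl fun π _ => prod_congr rfl fun x _ => ?_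
    have h2 : (Equiv.equivCongr (Equiv.refl (X H)) e) π x = e (π x) := rfl
    rw [h2]
    split_ifs with h
    · rw [Nm_eq H K (by rw [he, h]), eq_div_iff (by exact_mod_cast (hpos x).ne')]
      have := card_orb H K x
      rw [mul_comm]
      exact_mod_cast this
    · rw [Nm_zero H K (by rw [he]; exact fun h' => h h'.symm)]
      simp
  unfold P
  rw [h1, perm_sum (dX H K) (fun d => (Nat.card K : ℚ) / cc H K d)]
  have h3 : H.index = ∑ d : D H K, cc H K d := by
    rw [Subgroup.index, ← Nat.card_congr (Equiv.sigmaFiberEquiv (dX H K)), Nat.card_sigma]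
    rfl
  rw [h3, ← prod_pow_eq_pow_sum, ← prod_div_distrib]
  refine prod_congr rfl fun d _ => ?_
  have h4 : Fintype.card {a // dX H K a = d} = cc H K d := by
    rw [cc, Nat.card_eq_fintype_card]
  rw [h4, div_pow, hHK]
  have h5 : (Nat.card K : ℚ) ^ cc H K d ≠ 0 := by
    have : (Nat.card K : ℚ) ≠ 0 := by exact_mod_cast Nat.card_pos.ne'
    exact pow_ne_zero _ this
  field_simp

end dc

end Pool.Agent.R82.TP
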