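import Pool.Agent.R82.TP.Count

/-!
# The common transversal probability is never 12/625
(MP_e51b07_al)
-/

set_option autoImplicit false
set_option linter.unusedSectionVars false

namespace Pool.Agent.R82.TP

open scoped Classical Pointwise
open Finset

/-! ### Arithmetic -/

/-- `t! / t ^ t` -/
noncomputable def q (t : ℕ) : ℚ := (t.factorial : ℚ) / (t : ℚ) ^ t

theorem q_pos (t : ℕ) : 0 < q t := by
  unfold q
  rcases Nat.eq_zero_or_pos t with rfl | h
  · simp
  · have : (0 : ℚ) < t := by exact_mod_cast h
    positivity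

theorem q_le_one (t : ℕ) : q t ≤ 1 := by
  unfold q
  rcases Nat.eq_zero_or_pos t with rfl | h
  · simp
  · have h0 : (0 : ℚ) < t := by exact_mod_cast h
    rw [div_le_one (by positivity)]
    exact_mod_cast Nat.factorial_le_pow t

theorem q_succ (t : ℕ) : q (t + 1) ≤ q t := by
  unfold q
  rcases Nat.eq_zero_or_pos t with rfl | h
  · simp
  · have h0 : (0 : ℚ) < t := by exact_mod_cast h
    rw [div_le_div_iff₀ (by positivity) (by positivity), Nat.factorial_succ]
    push_cast
    have h1 : (t : ℚ) ^ t ≤ (t + 1) ^ t := pow_le_pow_left₀ h0.le (by linarith) _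
    calc ((t : ℚ) + 1) * (t.factorial : ℚ) * (t : ℚ) ^ t
        = (t.factorial : ℚ) * (t + 1) * (t : ℚ) ^ t := by ring
      _ ≤ (t.factorial : ℚ) * (t + 1) * (t + 1) ^ t := by gcongr
      _ = (t.factorial : ℚ) * (t + 1) ^ (t + 1) := by ring

theorem q_anti : Antitone q := antitone_nat_of_succ_le q_succ

theorem prod_le_of_mem {D : Type*} (s : Finset D) (c : D → ℕ) {d : D} (hd : d ∈ s) :
    ∏ x ∈ s, q (c x) ≤ q (c d) := by
  rw [← mul_prod_erase s _ hd]
  have : ∏ x ∈ s.erase d, q (c x) ≤ 1 := prod_le_one (fun x _ => (q_pos _).le)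
    (fun x _ => q_le_one _)
  exact mul_le_of_le_one_right (q_pos _).le this

theorem arith {D : Type*} [Fintype D] (c : D → ℕ) (hc : ∀ d, 0 < c d)
    (h : ∏ d, q (c d) = 12 / 625) :
    ∃ d5 d2, d5 ≠ d2 ∧ c d5 = 5 ∧ c d2 = 2 ∧ ∀ d, d ≠ d5 → d ≠ d2 → c d = 1 := by
  have h6 : ∀ d, c d ≤ 5 := by
    intro d
    by_contra hn
    have h1 := prod_le_of_mem univ c (mem_univ d)
    have h2 : q (c d) ≤ q 6 := q_anti (by omega)
    have h3 : q 6 = 5 / 324 := by
      unfold q
      norm_num [Nat.factorial]
    rw [h] at h1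
    rw [h3] at h2
    have := h1.trans h2
    norm_num at this
  obtain ⟨d5, hd5⟩ : ∃ d, c d = 5 := by
    have h1 : 625 * ∏ d, (c d).factorial = 12 * ∏ d, (c d) ^ (c d) := by
      unfold q at h
      rw [prod_div_distrib, div_eq_div_iff (prod_ne_zero_iff.2 fun d _ =>
        pow_ne_zero _ (by exact_mod_cast (hc d).ne')) (by norm_num)] at h
      have h2 : ((625 * ∏ d, (c d).factorial : ℕ) : ℚ) = ((12 * ∏ d, (c d) ^ (c d) : ℕ) : ℚ) := by
        push_cast
        linarith
      exact_mod_cast h2
    have h2 : 5 ∣ 12 * ∏ d, (c d) ^ (c d) := by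
      rw [← h1]
      exact Dvd.dvd.mul_right (by norm_num) _
    have h5 : Nat.Prime 5 := by norm_num
    rcases (Nat.Prime.dvd_mul h5).1 h2 with h3 | h3
    · norm_num at h3
    · obtain ⟨d, -, hd⟩ := (Prime.dvd_finsetProd_iff h5.prime _).1 h3
      have h4 := h5.dvd_of_dvd_pow hd
      have := Nat.le_of_dvd (hc d) h4
      exact ⟨d, le_antisymm (h6 d) this⟩
  have e1 : ∏ d ∈ univ.erase d5, q (c d) = 1 / 2 := by
    rw [← mul_prod_erase univ _ (mem_univ d5), hd5] at h
    have h3 : q 5 = 24 / 625 := by
      unfold q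
      norm_num [Nat.factorial]
    rw [h3] at h
    linarith
  have e2 : ∀ d, d ≠ d5 → c d ≤ 2 := by
    intro d hd
    by_contra hn
    have h1 := prod_le_of_mem (univ.erase d5) c (mem_erase.2 ⟨hd, mem_univ d⟩)
    have h2 : q (c d) ≤ q 3 := q_anti (by omega)
    have h3 : q 3 = 2 / 9 := by
      unfold q
      norm_num [Nat.factorial]
    rw [e1] at h1
    rw [h3] at h2
    have := h1.trans h2
    norm_num at this
  have q1 : q 1 = 1 := by simp [q]
  have q2 : q 2 = 1 / 2 := by
    unfold q
    norm_num [Nat.factorial]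
  obtain ⟨d2, hd2, hd2'⟩ : ∃ d, d ≠ d5 ∧ c d = 2 := by
    by_contra hn
    push Not at hn
    have : ∏ d ∈ univ.erase d5, q (c d) = 1 := by
      refine prod_eq_one fun d hd => ?_
      have h1 := (mem_erase.1 hd).1
      have h2 := hn d h1
      have h3 := e2 d h1
      have h4 := hc d
      have : c d = 1 := by omega
      rw [this, q1]
    rw [e1] at this
    norm_num at this
  refine ⟨d5, d2, fun h' => hd2 h'.symm, hd5, hd2', fun d hd hd' => ?_⟩
  by_contra hn
  have h1 := e2 d hd
  have h2 := hc d
  have h3 : c d = 2 := by omega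
  rw [← mul_prod_erase (univ.erase d5) _ (mem_erase.2 ⟨hd2, mem_univ d2⟩), hd2', q2] at e1
  have e3 : ∏ x ∈ (univ.erase d5).erase d2, q (c x) = 1 := by linarith
  have h4 := prod_le_of_mem ((univ.erase d5).erase d2) c
    (mem_erase.2 ⟨hd', mem_erase.2 ⟨hd, mem_univ d⟩⟩)
  rw [e3, h3, q2] at h4
  norm_num at h4

/-! ### Permutation groups -/

section perm

variable {G Ω : Type*} [Group G] [Finite G] [Finite Ω] [MulAction G Ω]

/-- the orbits of a subgroup -/
abbrev orb (A : Subgroup G) (z : Ω) : Set Ω := MulAction.orbit A z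

theorem mem_orb {A : Subgroup G} {z w : Ω} : w ∈ orb A z ↔ ∃ a ∈ A, a • z = w := by
  constructor
  · rintro ⟨a, rfl⟩
    exact ⟨a.1, a.2, rfl⟩
  · rintro ⟨a, ha, rfl⟩
    exact ⟨⟨a, ha⟩, rfl⟩

theorem self_mem (A : Subgroup G) (z : Ω) : z ∈ orb A z := MulAction.mem_orbit_self z

theorem orb_mono {A B : Subgroup G} (h : A ≤ B) (z : Ω) : orb A z ⊆ orb B z := by
  intro w hw
  obtain ⟨a, ha, rfl⟩ := mem_orb.1 hw
  exact mem_orb.2 ⟨a, h ha, rfl⟩

theorem orb_eq {A : Subgroup G} {z w : Ω} (h : w ∈ orb A z) : orb A w = orb A z :=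
  MulAction.orbit_eq_iff.2 h

theorem orb_card (A : Subgroup G) (z : Ω) :
    (orb A z).ncard * Nat.card (A ⊓ MulAction.stabilizer G z : Subgroup G) = Nat.card A := by
  have h1 : Nat.card (A ⊓ MulAction.stabilizer G z : Subgroup G)
      = Nat.card (MulAction.stabilizer A z) := by
    refine Nat.card_congr
      { toFun := fun g => ⟨⟨g.1, g.2.1⟩, g.2.2⟩
        invFun := fun g => ⟨g.1.1, g.1.2, g.2⟩
        left_inv := fun g => rfl
        right_inv := fun g => rfl }
  rw [h1, ← Nat.card_coe_set_eq, ← Nat.card_prod]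
  exact Nat.card_congr (MulAction.orbitProdStabilizerEquivGroup A z)

theorem orb_one {A : Subgroup G} {z : Ω} (h : (orb A z).ncard = 1) :
    A ≤ MulAction.stabilizer G z := by
  intro a ha
  obtain ⟨w, hw⟩ := Set.ncard_eq_one.1 h
  have h1 : z ∈ ({w} : Set Ω) := hw ▸ self_mem A z
  have h2 : a • z ∈ ({w} : Set Ω) := hw ▸ (mem_orb.2 ⟨a, ha, rfl⟩ : a • z ∈ orb A z)
  rw [Set.mem_singleton_iff] at h1 h2
  rw [MulAction.mem_stabilizer_iff, h2, h1]

theorem orb_of_le {A : Subgroup G} {z : Ω} (h : A ≤ MulAction.stabilizer G z) :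
    orb A z = {z} := by
  apply Set.Subset.antisymm
  · intro w hw
    obtain ⟨a, ha, rfl⟩ := mem_orb.1 hw
    exact h ha
  · rintro _ rfl
    exact self_mem A _

theorem card_pos (A : Subgroup G) : 0 < Nat.card A := Nat.card_pos

theorem L1 (A : Subgroup G) (y b : Ω) (h2 : (orb A y).ncard = 2) (h5 : (orb A b).ncard = 5) :
    orb (A ⊓ MulAction.stabilizer G y) b = orb A b := by
  have e1 := orb_card A y
  have e2 := orb_card A b
  have e3 := orb_card (A ⊓ MulAction.stabilizer G y) b
  have e4 := orb_card (A ⊓ MulAction.stabilizer G b) y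
  rw [inf_right_comm] at e4
  rw [h2, ← e3] at e1
  rw [h5, ← e4] at e2
  set m := (orb (A ⊓ MulAction.stabilizer G b) y).ncard
  set k := (orb (A ⊓ MulAction.stabilizer G y) b).ncard with hk
  set c := Nat.card (A ⊓ MulAction.stabilizer G y ⊓ MulAction.stabilizer G b : Subgroup G) with hc
  have hc0 : 0 < c := card_pos _
  have h : (2 * k) * c = (5 * m) * c := by
    rw [mul_assoc, mul_assoc, e1, e2]
  have h' := Nat.eq_of_mul_eq_mul_right hc0 h
  have hsub : orb (A ⊓ MulAction.stabilizer G y) b ⊆ orb A b := orb_mono inf_le_left b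
  have hle : k ≤ 5 := by
    rw [hk, ← h5]
    exact Set.ncard_le_ncard hsub (Set.toFinite _)
  have hpos : 0 < k := by
    rw [hk, Set.ncard_pos (Set.toFinite _)]
    exact ⟨b, self_mem _ _⟩
  have hk5 : k = 5 := by omega
  exact Set.eq_of_subset_of_ncard_le hsub (by rw [h5, ← hk5]) (Set.toFinite _)

variable [MulAction.IsPretransitive G Ω]

/-- fibres of an equivariant labelling -/
theorem fib_ncard {α : Type*} (F : Ω → α)
    (hF : ∀ (g : G) (z w : Ω), F z = F w → F (g • z) = F (g • w)) (x y : Ω) :
    ({z | F z = F x} : Set Ω).ncard = ({z | F z = F y} : Set Ω).ncard := by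
  obtain ⟨g, rfl⟩ := MulAction.exists_smul_eq G x y
  have h : ({z | F z = F (g • x)} : Set Ω) = g • ({z | F z = F x} : Set Ω) := by
    ext z
    rw [Set.mem_smul_set_iff_inv_smul_mem]
    simp only [Set.mem_ofPred_eq]
    constructor
    · intro h
      have := hF g⁻¹ _ _ h
      rwa [inv_smul_smul] at this
    · intro h
      have := hF g _ _ h
      rwa [smul_inv_smul] at this
  rw [h, Set.ncard_smul_set]

theorem fib_dvd {α : Type*} (F : Ω → α)
    (hF : ∀ (g : G) (z w : Ω), F z = F w → F (g • z) = F (g • w)) (x : Ω) :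
    ({z | F z = F x} : Set Ω).ncard ∣ Nat.card Ω := by
  have hB : MulAction.IsBlock G ({z | F z = F x} : Set Ω) := by
    rw [MulAction.isBlock_iff_smul_eq_of_mem]
    intro g a ha hga
    ext z
    rw [Set.mem_smul_set_iff_inv_smul_mem]
    simp only [Set.mem_ofPred_eq] at ha hga ⊢
    constructor
    · intro h
      have := hF g _ _ (h.trans ha.symm)
      rw [smul_inv_smul] at this
      exact this.trans hga
    · intro h
      have := hF g⁻¹ _ _ (h.trans hga.symm)
      rw [inv_smul_smul] at this
      exact this.trans ha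
  exact hB.ncard_dvd_card ⟨x, rfl⟩

theorem stab_equiv (g : G) (z w : Ω) (h : MulAction.stabilizer G z = MulAction.stabilizer G w) :
    MulAction.stabilizer G (g • z) = MulAction.stabilizer G (g • w) := by
  rw [MulAction.stabilizer_smul_eq_stabilizer_map_conj,
    MulAction.stabilizer_smul_eq_stabilizer_map_conj, h]

theorem orb_stab (g : G) (z w : Ω) :
    orb (MulAction.stabilizer G (g • z)) (g • w) = g • orb (MulAction.stabilizer G z) w := by
  ext v
  rw [Set.mem_smul_set_iff_inv_smul_mem, mem_orb, mem_orb]
  constructor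
  · rintro ⟨a, ha, rfl⟩
    refine ⟨g⁻¹ * a * g, ?_, by simp [mul_smul]⟩
    rw [MulAction.mem_stabilizer_iff] at ha ⊢
    rw [mul_smul, mul_smul, ha, inv_smul_smul]
  · rintro ⟨a, ha, hv⟩
    refine ⟨g * a * g⁻¹, ?_, ?_⟩
    · rw [MulAction.mem_stabilizer_iff] at ha ⊢
      rw [mul_smul, mul_smul, inv_smul_smul, ha]
    · rw [mul_smul, mul_smul, inv_smul_smul, hv, smul_inv_smul]

theorem orb_stab_ncard (g : G) (z w : Ω) :
    (orb (MulAction.stabilizer G (g • z)) (g • w)).ncard
      = (orb (MulAction.stabilizer G z) w).ncard := by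
  rw [orb_stab, Set.ncard_smul_set]

/-- the union of the suborbits with five elements -/
def F5 (G : Type*) {Ω : Type*} [Group G] [MulAction G Ω] (z : Ω) : Set Ω :=
  {w | (orb (MulAction.stabilizer G z) w).ncard = 5}

theorem F5_smul (g : G) (z : Ω) : F5 G (g • z) = g • F5 G z := by
  ext w
  rw [Set.mem_smul_set_iff_inv_smul_mem]
  unfold F5
  simp only [Set.mem_ofPred_eq]
  rw [← orb_stab_ncard g z (g⁻¹ • w), smul_inv_smul]

theorem no_group (K : Subgroup G) (hK : ∀ x : Ω, Nat.card K = Nat.card (MulAction.stabilizer G x))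
    (b y : Ω) (hb : (orb K b).ncard = 5) (hy : (orb K y).ncard = 2)
    (hz : ∀ z, z ∉ orb K b → z ∉ orb K y → (orb K z).ncard = 1) : False := by
  -- orbits
  have h25 : Disjoint (orb K b) (orb K y) := by
    rw [Set.disjoint_left]
    intro z h1 h2
    rw [← orb_eq h1, orb_eq h2, hy] at hb
    omega
  set F0 : Set Ω := {z | z ∉ orb K b ∧ z ∉ orb K y} with hF0
  have hn : Nat.card Ω = F0.ncard + 2 + 5 := by
    have h1 : F0 = (orb K b ∪ orb K y)ᶜ := by
      ext z
      simp [hF0]
    rw [h1, ← Set.ncard_add_ncard_compl (orb K b ∪ orb K y),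
      Set.ncard_union_eq h25 (Set.toFinite _) (Set.toFinite _), hb, hy]
    ring
  have hfixle : ∀ z ∈ F0, K = MulAction.stabilizer G z := by
    intro z hz'
    have h1 := orb_one (hz z hz'.1 hz'.2)
    exact Subgroup.eq_of_le_of_card_ge h1 (hK z).ge
  have hnotfix : ∀ z, K = MulAction.stabilizer G z → z ∈ F0 := by
    intro z h1
    have h2 : orb K z = {z} := orb_of_le h1.le
    constructor
    · intro h3
      rw [← orb_eq h3, h2] at hb
      simp at hb
    · intro h3
      rw [← orb_eq h3, h2] at hy
      simp at hy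
  have hO2 : ∀ z ∈ orb K y, (orb K z).ncard = 2 := fun z h => by rw [orb_eq h, hy]
  have hO5 : ∀ z ∈ orb K b, (orb K z).ncard = 5 := fun z h => by rw [orb_eq h, hb]
  by_cases hne : F0.Nonempty
  · -- `K` is a point stabiliser
    obtain ⟨x, hx⟩ := hne
    have hKx := hfixle x hx
    have hcl : ({z | MulAction.stabilizer G z = MulAction.stabilizer G x} : Set Ω) = F0 := by
      ext z
      simp only [Set.mem_ofPred_eq]
      constructor
      · intro h
        exact hnotfix z (by rw [h, ← hKx])
      · intro h
        rw [← hfixle z h, ← hKx]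
    have hdvd := fib_dvd (fun z : Ω => MulAction.stabilizer G z) stab_equiv x
    rw [hcl, hn, add_assoc] at hdvd
    have hdvd7 : F0.ncard ∣ 7 := (Nat.dvd_add_right (dvd_refl _)).1 hdvd
    have h17 : F0.ncard = 1 ∨ F0.ncard = 7 := (Nat.dvd_prime (by norm_num)).1 hdvd7
    rcases h17 with h1 | h7
    · -- one fixed point
      have hsz : ∀ w : Ω, (orb K w).ncard = 1 ∨ (orb K w).ncard = 2 ∨ (orb K w).ncard = 5 := by
        intro w
        by_cases h2 : w ∈ orb K b
        · exact Or.inr (Or.inr (hO5 w h2))
        · by_cases h3 : w ∈ orb K y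
          · exact Or.inr (Or.inl (hO2 w h3))
          · exact Or.inl (hz w h2 h3)
      have hszy : ∀ v w : Ω, (orb (MulAction.stabilizer G v) w).ncard = 1 ∨
          (orb (MulAction.stabilizer G v) w).ncard = 2 ∨
          (orb (MulAction.stabilizer G v) w).ncard = 5 := by
        intro v w
        obtain ⟨g, rfl⟩ := MulAction.exists_smul_eq G x v
        have h2 := orb_stab_ncard g x (g⁻¹ • w)
        rw [smul_inv_smul] at h2
        rw [h2, ← hKx]
        exact hsz _
      have hF5x : F5 G x = orb K b := by
        ext w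
        unfold F5
        simp only [Set.mem_ofPred_eq]
        rw [← hKx]
        constructor
        · intro h
          by_contra hc
          by_cases h3 : w ∈ orb K y
          · rw [hO2 w h3] at h; omega
          · rw [hz w hc h3] at h; omega
        · exact hO5 w
      have hF5y : ∀ z ∈ orb K y, F5 G z = orb K b := by
        intro z hzy
        have hsub : orb K b ⊆ F5 G z := by
          intro w hw
          unfold F5
          simp only [Set.mem_ofPred_eq]
          have h2 := L1 K z w (hO2 z hzy) (hO5 w hw)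
          have h3 : orb K w ⊆ orb (MulAction.stabilizer G z) w := by
            rw [← h2]
            exact orb_mono inf_le_right w
          have h4 := Set.ncard_le_ncard h3 (Set.toFinite _)
          rw [hO5 w hw] at h4
          rcases hszy z w with h5 | h5 | h5
          · omega
          · omega
          · exact h5
        obtain ⟨g, rfl⟩ := MulAction.exists_smul_eq G x z
        symm
        refine Set.eq_of_subset_of_ncard_le hsub ?_ (Set.toFinite _)
        rw [F5_smul, Set.ncard_smul_set, hF5x]
      have hcl5 : ({z | F5 G z = F5 G x} : Set Ω) = (orb K b)ᶜ := by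
        ext z
        simp only [Set.mem_ofPred_eq, Set.mem_compl_iff]
        constructor
        · intro h hzb
          have h2 : z ∈ F5 G z := by rw [h, hF5x]; exact hzb
          have h3 : (orb (MulAction.stabilizer G z) z).ncard = 5 := h2
          rw [orb_of_le (A := MulAction.stabilizer G z) (z := z) le_rfl] at h3
          simp at h3
        · intro h
          by_cases h3 : z ∈ orb K y
          · rw [hF5y z h3, hF5x]
          · have h4 := hfixle z ⟨h, h3⟩
            unfold F5
            rw [← h4, ← hKx]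
      have hd := fib_dvd (F5 G) (fun g z w h => by rw [F5_smul g z, F5_smul g w, h]) x
      have h3 : ((orb K b)ᶜ : Set Ω).ncard = 3 := by
        have := Set.ncard_add_ncard_compl (orb K b)
        rw [hb, hn, h1] at this
        omega
      rw [hcl5, h3, hn, h1] at hd
      norm_num at hd
    · -- seven fixed points
      have h2 := fib_ncard (fun z : Ω => MulAction.stabilizer G z) stab_equiv x y
      rw [hcl, h7] at h2
      have h3 : ({z | MulAction.stabilizer G z = MulAction.stabilizer G y} : Set Ω) ⊆ F0ᶜ := by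
        intro z hz' hz''
        have h4 := hfixle z hz''
        have h5 : MulAction.stabilizer G z = MulAction.stabilizer G y := hz'
        exact (hnotfix y (by rw [← h5, ← h4])).2 (self_mem K y)
      have h4 : (F0ᶜ : Set Ω).ncard = 7 := by
        have := Set.ncard_add_ncard_compl F0
        rw [hn, h7] at this
        omega
      have h5 := Set.eq_of_subset_of_ncard_le h3 (by rw [h4, ← h2]) (Set.toFinite _)
      have h6 : b ∈ (F0ᶜ : Set Ω) := fun h => h.1 (self_mem K b)
      rw [← h5] at h6
      have h8 : MulAction.stabilizer G b = MulAction.stabilizer G y := h6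
      have e1 := orb_card K b
      have e2 := orb_card K y
      rw [hb, h8] at e1
      rw [hy] at e2
      have := card_pos (K ⊓ MulAction.stabilizer G y)
      omega
  · -- no fixed point
    rw [Set.not_nonempty_iff_eq_empty] at hne
    rw [hne, Set.ncard_empty] at hn
    have hall : ∀ z, z ∈ orb K b ∨ z ∈ orb K y := by
      intro z
      by_contra hc
      push Not at hc
      have : z ∈ F0 := hc
      rw [hne] at this
      exact this
    set C : Subgroup G := K ⊓ MulAction.stabilizer G y with hC
    have hC2 : 2 * Nat.card C = Nat.card K := by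
      have := orb_card K y
      rwa [hy] at this
    obtain ⟨y', hy', hyy⟩ : ∃ y' ∈ orb K y, y' ≠ y := by
      obtain ⟨u, v, huv, h⟩ := Set.ncard_eq_two.1 hy
      by_cases hu : u = y
      · exact ⟨v, by rw [h]; simp, fun h' => huv (by rw [hu, h'])⟩
      · exact ⟨u, by rw [h]; simp, hu⟩
    have hO2' : orb K y = {y, y'} := by
      symm
      refine Set.eq_of_subset_of_ncard_le ?_ ?_ (Set.toFinite _)
      · rintro z (rfl | rfl)
        · exact self_mem K _
        · exact hy'
      · rw [hy, Set.ncard_pair (fun h => hyy h.symm)]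
    have hCy' : C ≤ MulAction.stabilizer G y' := by
      intro c hc
      have h1 : c • y' ∈ orb K y := by
        obtain ⟨k, hk, rfl⟩ := mem_orb.1 hy'
        exact mem_orb.2 ⟨c * k, K.mul_mem hc.1 hk, by rw [mul_smul]⟩
      rw [hO2'] at h1
      rcases h1 with h1 | h1
      · exfalso
        have h2 : c • y = y := hc.2
        have h3 : c • y' = c • y := by rw [h1, h2]
        exact hyy (MulAction.injective c h3)
      · exact h1
    set A := MulAction.stabilizer G y with hA
    have hAC : C ≤ A ⊓ MulAction.stabilizer G y' := le_inf inf_le_right hCy'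
    have h2 : (orb A y').ncard ≤ 2 := by
      have e1 := orb_card A y'
      have e2 : Nat.card C ≤ Nat.card (A ⊓ MulAction.stabilizer G y' : Subgroup G) :=
        Subgroup.card_le_of_le hAC
      have e3 : Nat.card A = 2 * Nat.card C := by rw [hC2, hK y]
      have e4 := card_pos C
      by_contra hc
      push Not at hc
      have : 3 * Nat.card C ≤ (orb A y').ncard *
          Nat.card (A ⊓ MulAction.stabilizer G y' : Subgroup G) := Nat.mul_le_mul hc e2
      omega
    have h3 : orb A y' = {y'} := by
      apply Set.Subset.antisymm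
      · intro w hw
        rcases hall w with h | h
        · exfalso
          have h4 := L1 K y w hy (hO5 w h)
          have h5 : orb K w ⊆ orb A w := by
            rw [← h4]
            exact orb_mono inf_le_right w
          have h6 := Set.ncard_le_ncard h5 (Set.toFinite _)
          rw [hO5 w h, orb_eq hw] at h6
          omega
        · rw [hO2'] at h
          rcases h with h | h
          · exfalso
            rw [h] at hw
            have h4 : orb A y = {y} := orb_of_le le_rfl
            have h5 : y' ∈ orb A y := by rw [orb_eq hw]; exact self_mem A y'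
            rw [h4] at h5
            exact hyy h5
          · exact h
      · rintro _ rfl
        exact self_mem A _
    have h4 : A = MulAction.stabilizer G y' := by
      refine Subgroup.eq_of_le_of_card_ge (orb_one (by rw [h3]; simp)) ?_
      rw [hA, ← hK, ← hK]
    have hcl : ({z | MulAction.stabilizer G z = MulAction.stabilizer G y} : Set Ω) = orb K y := by
      ext z
      simp only [Set.mem_ofPred_eq]
      constructor
      · intro h
        rcases hall z with h' | h'
        · exfalso
          have h5 := L1 K y z hy (hO5 z h')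
          have h6 : C ≤ MulAction.stabilizer G z := by
            rw [h]; exact inf_le_right
          have h7 : orb C z = {z} := orb_of_le h6
          have h8 := hO5 z h'
          rw [← h5, h7] at h8
          simp at h8
        · exact h'
      · intro h
        rw [hO2'] at h
        rcases h with rfl | rfl
        · rfl
        · exact h4.symm
    have hd := fib_dvd (fun z : Ω => MulAction.stabilizer G z) stab_equiv y
    rw [hcl, hy, hn] at hd
    norm_num at hd

end perm

/-! ### The result -/

/-- the common transversal probability is never `12 / 625` -/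
theorem P_ne {G : Type*} [Group G] [Finite G] (H K : Subgroup G) (hHK : Nat.card H = Nat.card K) :
    P H K ≠ 12 / 625 := by
  intro h
  have := Fintype.ofFinite (D H K)
  rw [P_eq H K hHK] at h
  have hposd : ∀ d : D H K, 0 < cc H K d := by
    intro d
    obtain ⟨x, rfl⟩ : ∃ x, dX H K x = d := Quotient.exists_rep d
    have : Nonempty {x' // dX H K x' = dX H K x} := ⟨⟨x, rfl⟩⟩
    exact Nat.card_pos
  obtain ⟨d5, d2, h52, h5, h2, h1⟩ := arith (cc H K) hposd h
  obtain ⟨b, rfl⟩ : ∃ x, dX H K x = d5 := Quotient.exists_rep d5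
  obtain ⟨y, rfl⟩ : ∃ x, dX H K x = d2 := Quotient.exists_rep d2
  have horb : ∀ x : X H, cc H K (dX H K x) = (orb K x).ncard := by
    intro x
    have h1 : (orb K x : Set (X H)) = {x' | dX H K x' = dX H K x} := by
      ext x'
      rw [mem_orb, Set.mem_ofPred_eq, dX_eq]
      constructor
      · rintro ⟨a, ha, rfl⟩
        exact ⟨a, ha, rfl⟩
      · rintro ⟨a, ha, rfl⟩
        exact ⟨a, ha, rfl⟩
    rw [h1, ← Nat.card_coe_set_eq]
    rfl
  have hmem : ∀ x z : X H, dX H K z = dX H K x → z ∈ orb K x := by
    intro x z hzx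
    obtain ⟨k, hk, rfl⟩ := (dX_eq H K).1 hzx
    exact mem_orb.2 ⟨k, hk, rfl⟩
  rw [horb] at h5 h2
  refine no_group K (fun x => ?_) b y h5 h2 ?_
  · rw [← hHK]
    obtain ⟨g, rfl⟩ : ∃ g, mX H g = x := QuotientGroup.mk_surjective x
    have e1 := orb_card (⊤ : Subgroup G) (mX H g)
    have e2 : orb (⊤ : Subgroup G) (mX H g) = Set.univ := by
      ext z
      simp only [Set.mem_univ, iff_true]
      obtain ⟨a, ha⟩ := MulAction.exists_smul_eq G (mX H g) z
      exact mem_orb.2 ⟨a, trivial, ha⟩
    rw [e2, top_inf_eq, Set.ncard_univ] at e1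
    have e3 := Subgroup.card_eq_card_quotient_mul_card_subgroup H
    have e4 : Nat.card (⊤ : Subgroup G) = Nat.card G := Subgroup.card_top
    rw [e4, e3] at e1
    exact (Nat.eq_of_mul_eq_mul_left Nat.card_pos e1).symm
  · intro z hz1 hz2
    rw [← horb]
    exact h1 _ (fun h => hz1 (hmem _ _ h)) (fun h => hz2 (hmem _ _ h))

end Pool.Agent.R82.TP
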